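import Pool.Agent.Y294.TB.Stm

set_option autoImplicit false

open MeasureTheory Set Filter Topology
open scoped InnerProductSpace
open Pool.Agent.H721R2.Quart Pool.Agent.H721R2.Ivrii

namespace Pool.Agent.Y568.TB

open Pool.Agent.TH746 H450Sp

/-- The variations are arbitrary on every side (truncated version of `surj_all`). -/
theorem surj_gen {E Z : Type*} [NormedAddCommGroup E] [InnerProductSpace ℝ E]
    [NormedAddCommGroup Z] [NormedSpace ℝ Z] (C : Chn E Z) {z : Z} (hz : z ∈ C.U) :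
    ∀ k < C.N, ∀ Y δ, ⟪C.n k z, Y⟫_ℝ = 0 → ⟪C.e k z, δ⟫_ℝ = 0 →
      ∃ ζ, fderiv ℝ (C.x k) z ζ = Y ∧ fderiv ℝ (C.e k) z ζ = δ := by
  intro k
  induction k with
  | zero => exact fun _ => C.surj z hz
  | succ k ih =>
    intro hk1 Y δ hY hδ
    have hk : k < C.N := by omega
    have hrefl : C.e (k + 1) z = rf (C.n (k + 1) z) (C.e k z) := C.refl k hk z
    have hn : ⟪C.n (k + 1) z, C.n (k + 1) z⟫_ℝ = 1 := C.nn (k + 1) hk1 z hz
    have htr' : ⟪C.n (k + 1) z, C.e k z⟫_ℝ ≠ 0 := by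
      intro h
      apply C.tr (k + 1) hk1 z hz
      rw [hrefl]
      unfold rf
      rw [inner_sub_right, inner_smul_right, h]
      simp
    -- the kick at the vertex `k + 1`
    obtain ⟨K, hK⟩ : ∃ K, K = -C.S (k + 1) z Y := ⟨_, rfl⟩
    have hKn : ⟪K, C.n (k + 1) z⟫_ℝ = 0 := by
      rw [hK, inner_neg_left, C.sym (k + 1) hk1 z hz, C.Sn (k + 1) hk1 z hz, inner_zero_right,
        neg_zero]
    obtain ⟨DD, hDD⟩ : ∃ DD, DD = rf (C.n (k + 1) z) (δ + (2 * ⟪K, C.e k z⟫_ℝ) • C.n (k + 1) z +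
      (2 * ⟪C.n (k + 1) z, C.e k z⟫_ℝ) • K) := ⟨_, rfl⟩
    have hDDe : ⟪C.e k z, DD⟫_ℝ = 0 := by
      rw [hDD, ← G3_rf_sym, ← hrefl, inner_add_right, inner_add_right, hδ, inner_smul_right,
        inner_smul_right]
      have h1 : ⟪C.e (k + 1) z, C.n (k + 1) z⟫_ℝ = -⟪C.n (k + 1) z, C.e k z⟫_ℝ := by
        rw [hrefl, real_inner_comm]
        unfold rf
        rw [inner_sub_right, inner_smul_right, hn]
        ring
      have h2 : ⟪C.e (k + 1) z, K⟫_ℝ = ⟪K, C.e k z⟫_ℝ := by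
        rw [hrefl, real_inner_comm]
        unfold rf
        rw [inner_sub_right, inner_smul_right, hKn]
        ring
      rw [h1, h2]
      ring
    -- the previous vertex
    obtain ⟨s, hs⟩ : ∃ s, s = ⟪C.n k z, Y - C.L k z • DD⟫_ℝ / ⟪C.n k z, C.e k z⟫_ℝ := ⟨_, rfl⟩
    obtain ⟨ζ, h1, h2⟩ := ih hk (Y - C.L k z • DD - s • C.e k z) DD (by
      rw [inner_sub_right, inner_smul_right, hs, div_mul_cancel₀ _ (C.tr k hk z hz), sub_self])
      hDDe
    have hstep : fderiv ℝ (C.x (k + 1)) z ζ =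
        fderiv ℝ (C.x k) z ζ + fderiv ℝ (C.L k) z ζ • C.e k z + C.L k z • fderiv ℝ (C.e k) z ζ :=
      G3_step C.hU hz (C.dx k hk.le z hz) (C.de k hk.le z hz) (C.dL k hk z hz)
        (fun z _ => C.step k hk z) ζ
    have hrj : fderiv ℝ (C.e (k + 1)) z ζ = rf (C.n (k + 1) z) (fderiv ℝ (C.e k) z ζ)
        - (2 * ⟪fderiv ℝ (C.n (k + 1)) z ζ, C.e k z⟫_ℝ) • C.n (k + 1) z
        - (2 * ⟪C.n (k + 1) z, C.e k z⟫_ℝ) • fderiv ℝ (C.n (k + 1)) z ζ := by
      have h1 : C.e (k + 1) = fun z => rf (C.n (k + 1) z) (C.e k z) := by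
        funext z; exact C.refl k hk z
      rw [h1]
      exact G3_rf_fderiv (C.dn (k + 1) hk z hz) (C.de k hk.le z hz) ζ
    have h3 : fderiv ℝ (C.x (k + 1)) z ζ = Y + (fderiv ℝ (C.L k) z ζ - s) • C.e k z := by
      rw [hstep, h1, h2]; module
    have h4 : fderiv ℝ (C.L k) z ζ - s = 0 := by
      have h5 := C.tan (k + 1) hk1 z hz ζ
      rw [h3, inner_add_right, hY, zero_add, inner_smul_right] at h5
      exact (mul_eq_zero.1 h5).resolve_right htr'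
    rw [h4, zero_smul, add_zero] at h3
    refine ⟨ζ, h3, ?_⟩
    rw [hrj, C.njac (k + 1) hk1 z hz, h3, h2, ← hK, hDD, G3_rf_invol hn]
    module

theorem surj : Pool.Agent.Y294.TB.S_SURJ := by
  intro Z _ _ C k hk z hz
  exact surj_gen C hz k hk

/-- Rotation by a right angle in the plane. -/
theorem exists_perp (v : EE 0) (hv : ⟪v, v⟫_ℝ = 1) : ∃ δ : EE 0, δ ≠ 0 ∧ ⟪v, δ⟫_ℝ = 0 := by
  refine ⟨!₂[-v.ofLp 1, v.ofLp 0], ?_, ?_⟩
  · intro h
    have h0 := congrArg (fun w : EE 0 => w.ofLp 0) h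
    have h1 := congrArg (fun w : EE 0 => w.ofLp 1) h
    have h2 : v = 0 := by
      ext i
      fin_cases i
      · simpa using h1
      · simpa using h0
    rw [h2] at hv
    simp at hv
  · simp [PiLp.inner_apply, Fin.sum_univ_two]
    ring

theorem ni : Pool.Agent.Y294.TB.S_NI := by
  intro Z _ _ _ _ _ μ _ C j hj1 hjN
  obtain ⟨i, rfl⟩ : ∃ i, j = i + 1 := ⟨j - 1, by omega⟩
  have hi : i < C.N := by omega
  simp only [Nat.add_sub_cancel]
  have hd : ∀ z ∈ C.U, DifferentiableAt ℝ (fun z => C.e (i + 1) z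
      - ⟪C.n (i + 1) z, C.e (i + 1) z⟫_ℝ • C.n (i + 1) z) z := by
    intro z hz
    exact (C.de (i + 1) hi z hz).sub
      (((C.dn (i + 1) hi z hz).inner ℝ (C.de (i + 1) hi z hz)).smul (C.dn (i + 1) hi z hz))
  obtain ⟨B, hB, hBm, hBn, hBz⟩ := ae_zero μ C.hU.measurableSet hd
  refine measure_mono_null ?_ hBn
  rintro z ⟨hz, he⟩
  refine ⟨hz, fun hzB => ?_⟩
  have hn : ⟪C.n (i + 1) z, C.n (i + 1) z⟫_ℝ = 1 := C.nn (i + 1) hjN z hz
  have hee : ⟪C.e (i + 1) z, C.e (i + 1) z⟫_ℝ = 1 := C.ee (i + 1) hjN z hz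
  have htr : ⟪C.n (i + 1) z, C.e (i + 1) z⟫_ℝ ≠ 0 := C.tr (i + 1) hjN z hz
  have hrefl : C.e (i + 1) z = rf (C.n (i + 1) z) (C.e i z) := C.refl i hi z
  -- the direction is normal
  have hpar : C.e (i + 1) z = ⟪C.n (i + 1) z, C.e (i + 1) z⟫_ℝ • C.n (i + 1) z := by
    have h1 : C.e i z = -C.e (i + 1) z := by rw [he, neg_neg]
    have h2 : C.e (i + 1) z = -C.e (i + 1) z
        + (2 * ⟪C.n (i + 1) z, C.e (i + 1) z⟫_ℝ) • C.n (i + 1) z := by
      nth_rewrite 1 [hrefl]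
      rw [h1]
      unfold rf
      rw [inner_neg_right]
      module
    have h3 : (2 : ℝ) • C.e (i + 1) z
        = (2 : ℝ) • (⟪C.n (i + 1) z, C.e (i + 1) z⟫_ℝ • C.n (i + 1) z) := by
      rw [smul_smul, two_smul]
      nth_rewrite 1 [h2]
      abel
    exact smul_right_injective _ (two_ne_zero) h3
  have hH : C.e (i + 1) z - ⟪C.n (i + 1) z, C.e (i + 1) z⟫_ℝ • C.n (i + 1) z = 0 := by
    rw [← hpar, sub_self]
  have hf := hBz z hzB hH
  obtain ⟨δ, hδ0, hδ⟩ := exists_perp (C.e (i + 1) z) hee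
  obtain ⟨ζ, h1, h2⟩ := surj_gen C hz (i + 1) hjN 0 δ (inner_zero_right _) hδ
  have hnz : fderiv ℝ (C.n (i + 1)) z ζ = 0 := by
    rw [C.njac (i + 1) hjN z hz, h1, map_zero, neg_zero]
  have hnδ : ⟪C.n (i + 1) z, δ⟫_ℝ = 0 := by
    rw [hpar, inner_smul_left] at hδ
    exact (mul_eq_zero.1 hδ).resolve_left (by simpa using htr)
  have hin := (C.dn (i + 1) hi z hz).hasFDerivAt.inner ℝ (C.de (i + 1) hi z hz).hasFDerivAt
  have hFD := (C.de (i + 1) hi z hz).hasFDerivAt.sub (hin.smul (C.dn (i + 1) hi z hz).hasFDerivAt)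
  have hfe : (fun z => C.e (i + 1) z - ⟪C.n (i + 1) z, C.e (i + 1) z⟫_ℝ • C.n (i + 1) z) =
      (C.e (i + 1) - (fun z => ⟪C.n (i + 1) z, C.e (i + 1) z⟫_ℝ) • C.n (i + 1)) := by
    funext z; rfl
  rw [hfe, hFD.fderiv] at hf
  have hf2 := congrArg (fun f => f ζ) hf
  simp only [sub_apply, add_apply, smul_apply, ContinuousLinearMap.smulRight_apply,
    ContinuousLinearMap.comp_apply, ContinuousLinearMap.prod_apply, fderivInnerCLM_apply,
    zero_apply, hnz, h2, hnδ, inner_zero_left, smul_zero, add_zero, zero_smul, sub_zero] at hf2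
  exact hδ0 hf2

end Pool.Agent.Y568.TB
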